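import Pool.Agent.Helper10.CV.M_N1
import Pool.Agent.Helper10.W3.M_Trq
import Pool.Agent.Helper10.W5.M_EvU
import Pool.Agent.Helper10.W5.M_Ex
import Pool.Agent.Helper10.W5.M_PlU
import Pool.Agent.Helper14.W5.M_Cert
import Pool.Agent.Helper16.W5.M_Lfm
import Pool.Agent.Helper16.W5.M_Trm
import Pool.Agent.Helper22.W5.M_BseOf
import Pool.Agent.Helper22.W5.M_HkB
import Pool.Agent.Helper24.W5.M_Itr
import Pool.Agent.Helper24.W5.M_TA
import Pool.Agent.Helper29.W5.M_DimO
import Pool.Agent.Helper29.W5.M_Nf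
import Pool.Agent.Helper32.W5.M_Bb
import Pool.Agent.Helper33.W5.M_Tri
import Pool.Agent.Helper34.W5.M_E1
import Pool.Agent.Helper34.W5.M_Uni
import Pool.Agent.Helper36.W5.M_CrmOf
import Pool.Agent.Helper36.W5.M_Edg
import Pool.Agent.Helper36.W5.M_SubB
import Pool.Agent.Helper37.W5.M_LBof
import Pool.Agent.Helper37.W5.M_PB3a
import Pool.Agent.Helper38.CV.M_Far
import Pool.Agent.Helper42.W5.M_Bal
import Pool.Agent.Helper43.W5.M_PHkW
import Pool.Agent.Helper47.W5.M_LftOf
import Pool.Agent.Helper53.W5.M_B3b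
import Pool.Agent.Helper53.W5.M_DimOf
import Pool.Agent.Helper53.W5.M_NexOf
import Pool.Agent.Helper53.W5.M_Om
import Pool.Agent.Helper55.CV.M_Fex
import Pool.Agent.Helper60.W5.M_HkF
import Pool.Agent.Helper60.W5.M_Wv
import Pool.Agent.Helper62.W5.M_UBof
import Pool.Agent.Helper62.W5.M_Unb
import Pool.Agent.Helper63.W5.M_PlA
import Pool.Agent.Helper63.W5.M_Prd
import Pool.Agent.Helper67.W5.M_Int
import Pool.Agent.Helper67.W5.M_Rel
import Pool.Agent.Helper69.W5.M_PHk
import Pool.Agent.Helper69.W5.M_Tre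
import Pool.Agent.Helper7.W5.M_DimK
import Pool.Agent.Helper7.W5.M_Low0
import Pool.Agent.Helper7.W5.M_PAvg
import Pool.Agent.Helper71.W5.M_CoreOf
import Pool.Agent.Helper71.W5.M_Hk3
import Pool.Agent.Helper71.W5.M_Ks
import Pool.Agent.Helper71.W5.M_Typ
import Pool.Agent.Helper72.W5.M_Nfa
import Pool.Agent.Helper78.W5.M_Lif
import Pool.Agent.Helper79.W5.M_Sur
import Pool.Agent.Helper8.W5.M_Hk2
import Pool.Agent.Helper8.W5.M_PEv
import Pool.Agent.Helper80.W5.M_Led
import Pool.Agent.Helper81.W5.M_BasOf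
import Pool.Agent.Helper81.W5.M_Lw1
import Pool.Agent.Helper82.WK.M_UIp
import Pool.Agent.Helper83.W5.M_Cnt
import Pool.Agent.Helper83.W5.M_PHkS
import Pool.Agent.Helper86.W5.M_DimE
import Pool.Agent.Helper86.W5.M_PCom
import Pool.Agent.Helper86.W5.M_SubA
import Pool.Agent.Helper92.W5.M_Lifp
import Pool.Agent.Helper92.W5.M_PMon
import Pool.Agent.Helper98.W5.M_Exp
import Pool.Agent.Helper98.W5.M_O1
import Pool.Agent.Helper99.W5.M_Kk
import Pool.Agent.Helper99.W5.M_Ld
import Pool.Agent.Helper99.W5.M_Split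

/-!
# Project W5: the core and Theorem A for the prime 5
-/

set_option autoImplicit false

namespace Pool.Agent.Helper78.W5

open Pool.Agent.Helper14.W5 Pool.Agent.Helper28.WK

/-- The core in weight 2, and Theorem A modulo `5^M`. -/
theorem core5 : S5Core ∧ TAp 5 := by
  have far := Pool.Agent.Helper38.CV.hFar
  have n1 := Pool.Agent.Helper10.CV.hN1
  have phk := Pool.Agent.Helper69.W5.hPHk n1
  have phkS := Pool.Agent.Helper83.W5.hPHkS phk
  have phkW := Pool.Agent.Helper43.W5.hPHkW phk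
  have pev := Pool.Agent.Helper8.W5.hPEv phkS phkW
  have pavg := Pool.Agent.Helper7.W5.hPAvg
  have pcom := Pool.Agent.Helper86.W5.hPCom
  have pb3a := Pool.Agent.Helper37.W5.hPB3a pavg Pool.Agent.Helper92.W5.hPMon pcom pev
  have b3b := Pool.Agent.Helper53.W5.hB3b far pev
  -- upper bound
  have plA := Pool.Agent.Helper63.W5.hPlA
  have edg := Pool.Agent.Helper36.W5.hEdg plA Pool.Agent.Helper10.W5.hPlU
  have typ := Pool.Agent.Helper71.W5.hTyp
  have dimK := Pool.Agent.Helper7.W5.hDimK Pool.Agent.Helper10.W3.hTrq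
  have split := Pool.Agent.Helper99.W5.hSplit
  have dimE := Pool.Agent.Helper86.W5.hDimE typ dimK split
  have dimO := Pool.Agent.Helper29.W5.hDimO typ dimK split
  have e1 := Pool.Agent.Helper34.W5.hE1 edg plA typ far
  have o1 := Pool.Agent.Helper98.W5.hO1 edg plA typ far
  have ub := Pool.Agent.Helper62.W5.hUBof Pool.Agent.Helper42.W5.hBal e1 o1 dimE dimO
  -- lower bound
  have trm := Pool.Agent.Helper16.W5.hTrm
  have tre := Pool.Agent.Helper69.W5.hTre edg plA
  have rel := Pool.Agent.Helper67.W5.hRel tre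
  have ex := Pool.Agent.Helper10.W5.hEx trm plA edg Pool.Agent.Helper55.CV.hFex far
  have uni := Pool.Agent.Helper34.W5.hUni edg tre far
  have hkB := Pool.Agent.Helper22.W5.hHkB phk
  have hkF := Pool.Agent.Helper60.W5.hHkF hkB edg plA
  have hk2 := Pool.Agent.Helper8.W5.hHk2 hkF tre trm
  have hk3 := Pool.Agent.Helper71.W5.hHk3 hkF tre trm
  have low0 := Pool.Agent.Helper7.W5.hLow0
  have prd := Pool.Agent.Helper63.W5.hPrd
  have subA := Pool.Agent.Helper86.W5.hSubA low0 prd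
  have subB := Pool.Agent.Helper36.W5.hSubB low0 prd
  have nfa := Pool.Agent.Helper72.W5.hNfa low0 subA subB
  have nf := Pool.Agent.Helper29.W5.hNf trm low0 nfa subA
  have exp := Pool.Agent.Helper98.W5.hExp low0 nfa nf
  have lw1 := Pool.Agent.Helper81.W5.hLw1 low0 nfa nf
  have cert := Pool.Agent.Helper14.W5.hCert
  have ld := Pool.Agent.Helper99.W5.hLd trm low0 nfa exp cert
  have om := Pool.Agent.Helper53.W5.hOm trm low0 cert
  have bb := Pool.Agent.Helper32.W5.hBb
  have sur := Pool.Agent.Helper79.W5.hSur trm low0 nfa lw1 bb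
  have led := Pool.Agent.Helper80.W5.hLed trm low0 nfa lw1 bb sur
  have itr := Pool.Agent.Helper24.W5.hItr rel hkB hk2 hk3 trm low0 ld om plA
  have tri := Pool.Agent.Helper33.W5.hTri low0 bb led ex itr
  have lif := Pool.Agent.Helper78.W5.hLif rel (Pool.Agent.Helper92.W5.hLifp trm) ex uni
  have cnt := Pool.Agent.Helper83.W5.hCnt
  have lb := Pool.Agent.Helper37.W5.hLBof tri lif Pool.Agent.Helper62.W5.hUnb cnt
  have core := Pool.Agent.Helper71.W5.hCoreOf pb3a b3b ub lb
  -- Theorem A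
  have h5 : Nat.Prime 5 := by norm_num
  have bas := Pool.Agent.Helper81.W5.hBasOf tri lif cnt
  have dim := Pool.Agent.Helper53.W5.hDimOf pb3a b3b ub
  have nex := Pool.Agent.Helper53.W5.hNexOf pb3a b3b ub lb
  have bse := Pool.Agent.Helper22.W5.hBseOf far
  have evu := Pool.Agent.Helper10.W5.hEvU phk phkS 5 h5
  have ks := Pool.Agent.Helper71.W5.hKs pavg pcom pev 5 h5 nex evu
  have kk := Pool.Agent.Helper99.W5.hKk 5 h5 ks bse
  have lft := Pool.Agent.Helper47.W5.hLftOf rel ex uni (Pool.Agent.Helper16.W5.hLfm trm)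
  have crm := Pool.Agent.Helper36.W5.hCrmOf Pool.Agent.Helper60.W5.hWv bas dim lft
  have int := Pool.Agent.Helper67.W5.hInt (Pool.Agent.Helper82.WK.hUIp far) 5 h5
  exact ⟨core, Pool.Agent.Helper24.W5.hTA pavg pcom pev 5 h5 crm kk int⟩

end Pool.Agent.Helper78.W5
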